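import Mathlib

/-!
# Spherical completeness of maximal rings of matched pairs (abstract form)

Project FT (MP_6e521b_an, head helper43), section 3 of note 4387.
-/

namespace Pool.Agent.H65.FT

open Polynomial

/-- A commutative ring `A` of germs with a subring `O` of bounded elements, infinitesimal elements
`m` and invertible scales `t g`. -/
structure Scale (A : Type*) [CommRing A] [Algebra ℂ A] (Γ : Type*) [AddCommGroup Γ] where
  O : Subring A
  m : Set A
  t : Γ → A
  alg_mem : ∀ c : ℂ, algebraMap ℂ A c ∈ O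
  m_sub : ∀ {a : A}, a ∈ m → a ∈ O
  zero_mem : (0 : A) ∈ m
  add_mem : ∀ {a b : A}, a ∈ m → b ∈ m → a + b ∈ m
  mul_mem : ∀ {a b : A}, a ∈ O → b ∈ m → a * b ∈ m
  unit : ∀ {a : A}, a ∈ m → ∃ b ∈ m, (1 + a) * (1 + b) = 1
  t_zero : t 0 = 1
  t_add : ∀ g h : Γ, t (g + h) = t g * t h
  total : ∀ g : Γ, g ≠ 0 → t g ∈ m ∨ t (-g) ∈ m

namespace Scale

variable {A : Type*} [CommRing A] [Algebra ℂ A] {Γ : Type*} [AddCommGroup Γ] (S : Scale A Γ)

/-- Leading term `(c, g)`. -/
def LT (a : A) (c : ℂ) (g : Γ) : Prop := c ≠ 0 ∧ ∃ μ ∈ S.m, a = algebraMap ℂ A c * S.t g * (1 + μ)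

/-- `x` is infinitesimal with respect to the scale `g`. -/
def Sm (x : A) (g : Γ) : Prop := x * S.t (-g) ∈ S.m

/-- every nonzero element of the subring `F` has a leading term -/
def Good (F : Subring A) : Prop := ∀ a ∈ F, a = 0 ∨ ∃ c g, S.LT a c g

theorem t_neg (g : Γ) : S.t g * S.t (-g) = 1 := by
  rw [← S.t_add, add_neg_cancel, S.t_zero]

theorem t_nsmul (n : ℕ) (g : Γ) : S.t (n • g) = S.t g ^ n := by
  induction n with
  | zero => simp [S.t_zero]
  | succ n ih => rw [succ_nsmul, S.t_add, ih, pow_succ]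

theorem neg_mem {a : A} (h : a ∈ S.m) : -a ∈ S.m := by
  have := S.mul_mem (S.O.neg_mem S.O.one_mem) h
  simpa using this

theorem sum_mem {ι : Type*} (s : Finset ι) (f : ι → A) (h : ∀ i ∈ s, f i ∈ S.m) :
    ∑ i ∈ s, f i ∈ S.m := by
  classical
  induction s using Finset.induction_on with
  | empty => simpa using S.zero_mem
  | insert a s ha ih =>
    rw [Finset.sum_insert ha]
    exact S.add_mem (h a (by simp)) (ih fun i hi => h i (by simp [hi]))

theorem mul_mem' {a b : A} (ha : a ∈ S.m) (hb : b ∈ S.O) : a * b ∈ S.m := by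
  rw [mul_comm]; exact S.mul_mem hb ha

theorem LT.inv {a : A} {c : ℂ} {g : Γ} (h : S.LT a c g) :
    ∃ b, a * b = 1 ∧ S.LT b c⁻¹ (-g) := by
  obtain ⟨hc, μ, hμ, rfl⟩ := h
  obtain ⟨ν, hν, h1⟩ := S.unit hμ
  refine ⟨algebraMap ℂ A c⁻¹ * S.t (-g) * (1 + ν), ?_, inv_ne_zero hc, ν, hν, rfl⟩
  have h2 : algebraMap ℂ A c * algebraMap ℂ A c⁻¹ = 1 := by
    rw [← map_mul, mul_inv_cancel₀ hc, map_one]
  calc _ = (algebraMap ℂ A c * algebraMap ℂ A c⁻¹) * (S.t g * S.t (-g)) * ((1 + μ) * (1 + ν)) := by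
        ring
    _ = 1 := by rw [h2, S.t_neg, h1]; ring

theorem LT.mul {a b : A} {c d : ℂ} {g h : Γ} (ha : S.LT a c g) (hb : S.LT b d h) :
    S.LT (a * b) (c * d) (g + h) := by
  obtain ⟨hc, μ, hμ, rfl⟩ := ha
  obtain ⟨hd, ν, hν, rfl⟩ := hb
  refine ⟨mul_ne_zero hc hd, μ + ν + μ * ν,
    S.add_mem (S.add_mem hμ hν) (S.mul_mem (S.m_sub hμ) hν), ?_⟩
  rw [map_mul, S.t_add]
  ring

theorem LT.one : S.LT 1 1 0 :=
  ⟨one_ne_zero, 0, S.zero_mem, by simp [S.t_zero]⟩

theorem LT.pow {a : A} {c : ℂ} {g : Γ} (ha : S.LT a c g) (k : ℕ) :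
    S.LT (a ^ k) (c ^ k) (k • g) := by
  induction k with
  | zero => simpa using LT.one S
  | succ k ih => rw [pow_succ, pow_succ, succ_nsmul]; exact LT.mul S ih ha

/-- adding something small does not change the leading term -/
theorem LT.add {a ν : A} {c : ℂ} {g : Γ} (ha : S.LT a c g) (hν : ν ∈ S.m) :
    S.LT (a + S.t g * ν) c g := by
  obtain ⟨hc, μ, hμ, rfl⟩ := ha
  have h2 : algebraMap ℂ A c * algebraMap ℂ A c⁻¹ = 1 := by
    rw [← map_mul, mul_inv_cancel₀ hc, map_one]
  refine ⟨hc, μ + algebraMap ℂ A c⁻¹ * ν, S.add_mem hμ (S.mul_mem (S.alg_mem _) hν), ?_⟩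
  calc _ = algebraMap ℂ A c * S.t g * (1 + μ) + 1 * (S.t g * ν) := by ring
    _ = _ := by rw [← h2]; ring

/-- The main computation: Taylor shift by a small amount. -/
theorem taylor_shift (Q : A[X]) (δ : A) (γ h : Γ)
    (hQ : ∀ l, l ≠ 0 → Q.coeff l * S.t (l • γ - h) ∈ S.O) (hδ : S.Sm δ γ) :
    (∃ ν ∈ S.m, (taylor δ Q).coeff 0 = Q.coeff 0 + S.t h * ν) ∧
    ∀ l, l ≠ 0 → ∀ γ', (S.t (γ' - γ) ∈ S.O → (taylor δ Q).coeff l * S.t (l • γ' - h) ∈ S.O) ∧
      (S.t (γ' - γ) ∈ S.m → (taylor δ Q).coeff l * S.t (l • γ' - h) ∈ S.m) := by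
  have hco : ∀ l, (taylor δ Q).coeff l =
      ∑ n ∈ Finset.range (Q.natDegree + 1), ((n + l).choose l : A) * Q.coeff (n + l) * δ ^ n := by
    intro l
    rw [taylor_coeff, eval_eq_sum_range' (n := Q.natDegree + 1)]
    · refine Finset.sum_congr rfl fun n _ => ?_
      rw [hasseDeriv_coeff]
    · have := natDegree_hasseDeriv_le Q l
      omega
  refine ⟨⟨∑ n ∈ Finset.range Q.natDegree,
      Q.coeff (n + 1) * S.t ((n + 1) • γ - h) * (δ * S.t (-γ)) ^ (n + 1), ?_, ?_⟩, ?_⟩
  · refine S.sum_mem _ _ fun n _ => S.mul_mem (hQ (n + 1) (by omega)) ?_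
    rw [pow_succ]
    exact S.mul_mem (S.O.pow_mem (S.m_sub hδ) n) hδ
  · rw [hco 0, Finset.sum_range_succ', Finset.mul_sum, add_comm]
    congr 1
    · simp
    · refine Finset.sum_congr rfl fun n _ => ?_
      have h1 : S.t h * S.t ((n + 1) • γ - h) * S.t (-γ) ^ (n + 1) = 1 := by
        rw [← S.t_nsmul, ← S.t_add, ← S.t_add, ← S.t_zero]
        congr 1
        rw [smul_neg]
        abel
      calc _ = Q.coeff (n + 1) * δ ^ (n + 1) * 1 := by simp
        _ = _ := by rw [← h1, mul_pow]; ring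
  · intro l hl γ'
    have hterm : ∀ n, ((n + l).choose l : A) * Q.coeff (n + l) * δ ^ n * S.t (l • γ' - h) =
        (((n + l).choose l : A) * (Q.coeff (n + l) * S.t ((n + l) • γ - h)) *
          (δ * S.t (-γ)) ^ n) * S.t (γ' - γ) ^ l := by
      intro n
      have h1 : S.t (l • γ' - h) = S.t ((n + l) • γ - h) * S.t (-γ) ^ n * S.t (γ' - γ) ^ l := by
        rw [← S.t_nsmul, ← S.t_nsmul, ← S.t_add, ← S.t_add]
        congr 1
        rw [smul_neg, smul_sub, add_smul]
        abel
      rw [h1, mul_pow]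
      ring
    have hO : ∀ n, (((n + l).choose l : A) * (Q.coeff (n + l) * S.t ((n + l) • γ - h)) *
          (δ * S.t (-γ)) ^ n) ∈ S.O := fun n =>
      S.O.mul_mem (S.O.mul_mem (natCast_mem _ _) (hQ _ (by omega)))
        (S.O.pow_mem (S.m_sub hδ) n)
    rw [hco l, Finset.sum_mul]
    constructor
    · intro ht
      refine S.O.sum_mem fun n _ => ?_
      rw [hterm]
      exact S.O.mul_mem (hO n) (S.O.pow_mem ht l)
    · intro ht
      refine S.sum_mem _ _ fun n _ => ?_
      rw [hterm]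
      refine S.mul_mem (hO n) ?_
      obtain ⟨k, rfl⟩ := Nat.exists_eq_succ_of_ne_zero hl
      rw [Nat.succ_eq_add_one, pow_succ]
      exact S.mul_mem (S.O.pow_mem (S.m_sub ht) k) ht

/-- In a maximal good ring nonzero elements have an inverse. -/
theorem exists_inv (F : Subring A) (hF : S.Good F)
    (hmax : ∀ F' : Subring A, F ≤ F' → S.Good F' → F' ≤ F) (a : A) (ha : a ∈ F) (h0 : a ≠ 0) :
    ∃ b ∈ F, a * b = 1 := by
  obtain ⟨c, g, hlt⟩ := (hF a ha).resolve_left h0
  obtain ⟨b, hab, hb⟩ := LT.inv S hlt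
  let F' : Subring A :=
    { carrier := {y | ∃ k, a ^ k * y ∈ F}
      mul_mem' := by
        rintro x y ⟨k, hk⟩ ⟨l, hl⟩
        refine ⟨k + l, ?_⟩
        have := F.mul_mem hk hl
        rwa [show a ^ k * x * (a ^ l * y) = a ^ (k + l) * (x * y) by ring] at this
      one_mem' := ⟨0, by simpa using F.one_mem⟩
      add_mem' := by
        rintro x y ⟨k, hk⟩ ⟨l, hl⟩
        refine ⟨k + l, ?_⟩
        have := F.add_mem (F.mul_mem (F.pow_mem ha l) hk) (F.mul_mem (F.pow_mem ha k) hl)
        rwa [show a ^ l * (a ^ k * x) + a ^ k * (a ^ l * y) = a ^ (k + l) * (x + y) by ring]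
          at this
      zero_mem' := ⟨0, by simpa using F.zero_mem⟩
      neg_mem' := by
        rintro x ⟨k, hk⟩
        exact ⟨k, by simpa using F.neg_mem hk⟩ }
  have hle : F ≤ F' := fun y hy => ⟨0, by simpa using hy⟩
  have hgood : S.Good F' := by
    rintro y ⟨k, hk⟩
    have hy : y = a ^ k * y * b ^ k := by
      calc y = y * (a * b) ^ k := by rw [hab]; simp
        _ = _ := by rw [mul_pow]; ring
    rcases hF _ hk with h | ⟨c', g', h⟩
    · left; rw [hy, h, zero_mul]
    · right
      refine ⟨c' * c⁻¹ ^ k, g' + k • (-g), ?_⟩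
      rw [hy]
      exact LT.mul S h (LT.pow S hb k)
  exact ⟨b, hmax F' hle hgood ⟨1, by simpa [hab] using F.one_mem⟩, hab⟩

/-- `F[x]` is good if every nonzero polynomial has a leading term at `x`, hence `x ∈ F`. -/
theorem mem_of_good (F : Subring A)
    (hmax : ∀ F' : Subring A, F ≤ F' → S.Good F' → F' ≤ F) (x : A)
    (h : ∀ p : F[X], aeval x p = 0 ∨ ∃ c g, S.LT (aeval x p) c g) : x ∈ F := by
  let F' : Subring A := (aeval x : F[X] →ₐ[F] A).toRingHom.range
  have hle : F ≤ F' := fun y hy => ⟨C ⟨y, hy⟩, by simp; rfl⟩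
  have hgood : S.Good F' := by
    rintro _ ⟨p, rfl⟩
    exact h p
  exact hmax F' hle hgood ⟨X, by simp⟩

/-- `p` is settled at `(a, γ)`. -/
def Settled (F : Subring A) (a : F) (γ : Γ) (p : F[X]) : Prop :=
  ∃ c h, S.LT ((taylor a p).coeff 0 : A) c h ∧
    ∀ l, l ≠ 0 → ((taylor a p).coeff l : A) * S.t (l • γ - h) ∈ S.O

theorem coe_coeff_taylor (F : Subring A) (a : F) (p : F[X]) (l : ℕ) :
    ((taylor a p).coeff l : A) = (taylor (a : A) (p.map F.subtype)).coeff l := by
  have h := congrArg (fun q => q.coeff l) (map_taylor p a F.subtype)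
  simp only [coeff_map] at h
  exact h

theorem aeval_eq_coeff_taylor (F : Subring A) (x : A) (p : F[X]) :
    aeval x p = (taylor x (p.map F.subtype)).coeff 0 := by
  rw [taylor_coeff_zero, aeval_def, eval_map]
  rfl

/-- Shift of a settled polynomial. -/
theorem Settled.shift (F : Subring A) (a : F) (γ : Γ) (p : F[X]) (x : A) (hx : S.Sm (x - a) γ)
    {c : ℂ} {h : Γ} (h0 : S.LT ((taylor a p).coeff 0 : A) c h)
    (hl : ∀ l, l ≠ 0 → ((taylor a p).coeff l : A) * S.t (l • γ - h) ∈ S.O) :
    S.LT ((taylor x (p.map F.subtype)).coeff 0) c h ∧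
    ∀ l, l ≠ 0 → ∀ γ', (S.t (γ' - γ) ∈ S.O →
        (taylor x (p.map F.subtype)).coeff l * S.t (l • γ' - h) ∈ S.O) ∧
      (S.t (γ' - γ) ∈ S.m →
        (taylor x (p.map F.subtype)).coeff l * S.t (l • γ' - h) ∈ S.m) := by
  have hT : taylor x (p.map F.subtype) = taylor (x - a) (taylor (a : A) (p.map F.subtype)) := by
    rw [taylor_taylor, sub_add_cancel]
  obtain ⟨⟨ν, hν, h1⟩, h2⟩ := S.taylor_shift (taylor (a : A) (p.map F.subtype)) (x - a) γ h
    (fun l hl' => by rw [← coe_coeff_taylor]; exact hl l hl') hx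
  rw [hT]
  refine ⟨?_, h2⟩
  rw [h1, ← coe_coeff_taylor]
  exact LT.add S h0 hν

theorem Settled.lt (F : Subring A) (a : F) (γ : Γ) (p : F[X]) (hp : S.Settled F a γ p) (x : A)
    (hx : S.Sm (x - a) γ) : ∃ c g, S.LT (aeval x p) c g := by
  obtain ⟨c, h, h0, hl⟩ := hp
  exact ⟨c, h, by rw [aeval_eq_coeff_taylor]; exact (Settled.shift S F a γ p x hx h0 hl).1⟩

theorem Settled.const_mul (F : Subring A) (a : F) (γ : Γ) (p : F[X]) (hp : S.Settled F a γ p)
    (r : F) (hr : ∃ c g, S.LT (r : A) c g) : S.Settled F a γ (C r * p) := by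
  obtain ⟨c, h, h0, hl⟩ := hp
  obtain ⟨d, g, hr⟩ := hr
  have hT : taylor a (C r * p) = C r * taylor a p := by rw [taylor_mul, taylor_C]
  refine ⟨d * c, g + h, ?_, fun l hl' => ?_⟩
  · rw [hT, coeff_C_mul]
    push_cast
    exact LT.mul S hr h0
  · rw [hT, coeff_C_mul]
    obtain ⟨hd, μ, hμ, hr⟩ := hr
    have h1 : S.t (l • γ - (g + h)) = S.t (-g) * S.t (l • γ - h) := by
      rw [← S.t_add]; congr 1; abel
    push_cast
    rw [hr, h1]
    have h2 := S.t_neg g
    have : algebraMap ℂ A d * S.t g * (1 + μ) * ((taylor a p).coeff l : A) *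
        (S.t (-g) * S.t (l • γ - h)) = algebraMap ℂ A d * (1 + μ) *
        (((taylor a p).coeff l : A) * S.t (l • γ - h)) * (S.t g * S.t (-g)) := by ring
    rw [this, h2, mul_one]
    exact S.O.mul_mem (S.O.mul_mem (S.alg_mem _) (S.O.add_mem S.O.one_mem (S.m_sub hμ)))
      (hl l hl')

theorem coeff_taylor_derivative {R : Type*} [CommRing R] (a : R) (p : R[X]) (l : ℕ) :
    (taylor a (derivative p)).coeff l = (taylor a p).coeff (l + 1) * (l + 1) := by
  have : taylor a (derivative p) = derivative (taylor a p) := by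
    rw [taylor_apply, taylor_apply, derivative_comp]
    simp
  rw [this, coeff_derivative]

/-- The Newton step for a polynomial which is not settled although its derivative is settled. -/
theorem newton
    (hensel : ∀ f : A[X], f.coeff 1 = 1 → (∀ l, l ≠ 1 → f.coeff l ∈ S.m) →
      ∃ w ∈ S.m, f.eval w = 0)
    (F : Subring A) (hF : S.Good F) (a b : F) (γ γ' : Γ) (hγ : S.t (γ' - γ) ∈ S.m)
    (hb : S.Sm ((b : A) - a) γ) (p : F[X]) (hp' : S.Settled F a γ (derivative p))
    (hp : ¬ S.Settled F b γ' p) :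
    ∃ x, aeval x p = 0 ∧ S.Sm (x - b) γ' ∧ ∀ y, aeval y p = 0 → S.Sm (y - b) γ' → y = x := by
  obtain ⟨c, h, h0, hl⟩ := hp'
  obtain ⟨h1, h2⟩ := Settled.shift S F a γ (derivative p) b hb h0 hl
  -- Taylor coefficients of `p` at `b`
  have hder : ∀ l, (taylor (b : A) ((derivative p).map F.subtype)).coeff l =
      ((taylor b p).coeff (l + 1) : A) * (l + 1) := by
    intro l
    rw [← derivative_map, coeff_taylor_derivative, coe_coeff_taylor]
  have hinv : ∀ l : ℕ, ((l : A) + 1) * algebraMap ℂ A ((l : ℂ) + 1)⁻¹ = 1 := by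
    intro l
    have : ((l : A) + 1) = algebraMap ℂ A ((l : ℂ) + 1) := by simp
    rw [this, ← map_mul, mul_inv_cancel₀, map_one]
    exact_mod_cast Nat.succ_ne_zero l
  have hone : S.LT ((taylor b p).coeff 1 : A) c h := by
    have := h1
    rw [hder 0] at this
    simpa using this
  have hbig : ∀ l, l ≠ 0 → ((taylor b p).coeff (l + 1) : A) * S.t (l • γ' - h) ∈ S.m := by
    intro l hl'
    have h3 := (h2 l hl' γ').2 hγ
    rw [hder l] at h3
    have h4 := S.mul_mem (S.alg_mem ((l : ℂ) + 1)⁻¹) h3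
    have : algebraMap ℂ A ((l : ℂ) + 1)⁻¹ * (((taylor b p).coeff (l + 1) : A) * (l + 1) *
        S.t (l • γ' - h)) = ((taylor b p).coeff (l + 1) : A) * S.t (l • γ' - h) *
          (((l : A) + 1) * algebraMap ℂ A ((l : ℂ) + 1)⁻¹) := by ring
    rwa [this, hinv, mul_one] at h4
  -- the constant coefficient is small
  have hzero : ((taylor b p).coeff 0 : A) * S.t (-h - γ') ∈ S.m := by
    rcases hF _ ((taylor b p).coeff 0).2 with h5 | ⟨c0, k, h5⟩
    · rw [h5, zero_mul]; exact S.zero_mem
    by_cases hk : S.t (k - h - γ') ∈ S.m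
    · obtain ⟨_, μ, hμ, h6⟩ := h5
      rw [h6]
      have : algebraMap ℂ A c0 * S.t k * (1 + μ) * S.t (-h - γ') =
          (algebraMap ℂ A c0 * (1 + μ)) * S.t (k - h - γ') := by
        have : S.t (k - h - γ') = S.t k * S.t (-h - γ') := by
          rw [← S.t_add]; congr 1; abel
        rw [this]; ring
      rw [this]
      exact S.mul_mem (S.O.mul_mem (S.alg_mem _) (S.O.add_mem S.O.one_mem (S.m_sub hμ))) hk
    · exfalso
      have hO : S.t (h + γ' - k) ∈ S.O := by
        by_cases hz : k - h - γ' = 0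
        · have : h + γ' - k = 0 := by
            have := congrArg Neg.neg hz
            rw [neg_zero] at this
            rw [← this]; abel
          rw [this, S.t_zero]; exact S.O.one_mem
        · rcases S.total _ hz with h6 | h6
          · exact absurd h6 hk
          · have : h + γ' - k = -(k - h - γ') := by abel
            rw [this]; exact S.m_sub h6
      refine hp ⟨c0, k, h5, fun l hl' => ?_⟩
      obtain ⟨l, rfl⟩ := Nat.exists_eq_succ_of_ne_zero hl'
      rw [Nat.succ_eq_add_one]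
      have h7 : S.t ((l + 1) • γ' - k) = S.t (l • γ' - h) * S.t (h + γ' - k) := by
        rw [← S.t_add]; congr 1; rw [add_smul, one_smul]; abel
      rw [h7, ← mul_assoc]
      refine S.O.mul_mem ?_ hO
      by_cases hl0 : l = 0
      · subst hl0
        obtain ⟨_, μ, hμ, h8⟩ := hone
        rw [zero_add, h8, zero_smul, zero_sub]
        have : algebraMap ℂ A c * S.t h * (1 + μ) * S.t (-h) =
            algebraMap ℂ A c * (1 + μ) * (S.t h * S.t (-h)) := by ring
        rw [this, S.t_neg, mul_one]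
        exact S.O.mul_mem (S.alg_mem _) (S.O.add_mem S.O.one_mem (S.m_sub hμ))
      · exact S.m_sub (hbig l hl0)
  -- the normalised polynomial
  obtain ⟨e, he, helt⟩ := LT.inv S hone
  obtain ⟨_, ν, hν, heq⟩ := helt
  set f : A[X] := C (e * S.t (-γ')) *
    (taylor (b : A) (p.map F.subtype)).comp (C (S.t γ') * X) with hf
  have hfco : ∀ l, f.coeff l = e * S.t (-γ') * (((taylor b p).coeff l : A) * S.t γ' ^ l) := by
    intro l
    rw [hf, coeff_C_mul, comp_C_mul_X_coeff, coe_coeff_taylor]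
  have hf1 : f.coeff 1 = 1 := by
    rw [hfco, pow_one]
    calc _ = ((taylor b p).coeff 1 : A) * e * (S.t γ' * S.t (-γ')) := by ring
      _ = 1 := by rw [he, S.t_neg, one_mul]
  have heO : ∀ k : Γ, e * S.t k = algebraMap ℂ A c⁻¹ * (1 + ν) * S.t (k - h) := by
    intro k
    have : S.t (k - h) = S.t k * S.t (-h) := by rw [← S.t_add]; congr 1; abel
    rw [heq, this]; ring
  have hfl : ∀ l, l ≠ 1 → f.coeff l ∈ S.m := by
    intro l hl1
    rw [hfco]
    have hcν : algebraMap ℂ A c⁻¹ * (1 + ν) ∈ S.O :=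
      S.O.mul_mem (S.alg_mem _) (S.O.add_mem S.O.one_mem (S.m_sub hν))
    rcases Nat.eq_zero_or_pos l with rfl | hpos
    · rw [pow_zero, mul_one, heO]
      have : S.t (-γ' - h) = S.t (-h - γ') := by congr 1; abel
      rw [this, mul_assoc, mul_comm (S.t _)]
      exact S.mul_mem hcν hzero
    · obtain ⟨l, rfl⟩ := Nat.exists_eq_succ_of_ne_zero hpos.ne'
      rw [Nat.succ_eq_add_one] at hl1 ⊢
      have hl0 : l ≠ 0 := by omega
      have h9 : S.t (-γ') * S.t γ' ^ (l + 1) = S.t (l • γ') := by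
        rw [← S.t_nsmul, ← S.t_add]; congr 1; rw [add_smul, one_smul]; abel
      have : e * S.t (-γ') * (((taylor b p).coeff (l + 1) : A) * S.t γ' ^ (l + 1)) =
          e * (S.t (-γ') * S.t γ' ^ (l + 1)) * ((taylor b p).coeff (l + 1) : A) := by ring
      rw [this, h9, heO, mul_assoc, mul_comm (S.t _)]
      exact S.mul_mem hcν (hbig l hl0)
  -- roots of `f` and roots of `p`
  have hroot : ∀ y : A, f.eval ((y - b) * S.t (-γ')) = e * S.t (-γ') * aeval y p := by
    intro y
    rw [hf, eval_mul, eval_C, eval_comp, eval_mul, eval_C, eval_X]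
    congr 1
    have : S.t γ' * ((y - b) * S.t (-γ')) = y - b := by
      calc _ = (y - b) * (S.t γ' * S.t (-γ')) := by ring
        _ = _ := by rw [S.t_neg, mul_one]
    rw [this, taylor_eval_sub, aeval_def, eval_map]
    rfl
  have hcancel : ∀ z : A, e * S.t (-γ') * z = 0 → z = 0 := by
    intro z hz
    calc z = ((taylor b p).coeff 1 : A) * e * (S.t γ' * S.t (-γ')) * z := by
          rw [he, S.t_neg]; ring
      _ = ((taylor b p).coeff 1 : A) * S.t γ' * (e * S.t (-γ') * z) := by ring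
      _ = 0 := by rw [hz, mul_zero]
  -- uniqueness of small roots of `f`
  have huniq : ∀ w w' : A, w ∈ S.m → w' ∈ S.m → f.eval w = 0 → f.eval w' = 0 → w = w' := by
    intro w w' hw hw' hfw hfw'
    have h10 : ∃ μ ∈ S.m, f.eval w - f.eval w' = (w - w') * (1 + μ) := by
      rw [eval_eq_sum_range, eval_eq_sum_range, ← Finset.sum_sub_distrib]
      have hpow : ∀ l, ∃ k ∈ S.O, (2 ≤ l → k ∈ S.m) ∧ w ^ l - w' ^ l = (w - w') * k ∧
          (l = 1 → k = 1) := by
        intro l
        refine ⟨∑ i ∈ Finset.range l, w ^ i * w' ^ (l - 1 - i), ?_, ?_, ?_, ?_⟩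
        · exact S.O.sum_mem fun i _ => S.O.mul_mem (S.O.pow_mem (S.m_sub hw) _)
            (S.O.pow_mem (S.m_sub hw') _)
        · intro h2l
          refine S.sum_mem _ _ fun i hi => ?_
          rcases Nat.eq_zero_or_pos i with rfl | hi0
          · rw [pow_zero, one_mul]
            obtain ⟨k, hk⟩ := Nat.exists_eq_succ_of_ne_zero (show l - 1 - 0 ≠ 0 by omega)
            rw [hk, Nat.succ_eq_add_one, pow_succ]
            exact S.mul_mem (S.O.pow_mem (S.m_sub hw') _) hw'
          · obtain ⟨k, hk⟩ := Nat.exists_eq_succ_of_ne_zero hi0.ne'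
            rw [hk, Nat.succ_eq_add_one, pow_succ, mul_assoc, mul_comm]
            exact S.mul_mem' (S.mul_mem' hw (S.O.pow_mem (S.m_sub hw') _))
              (S.O.pow_mem (S.m_sub hw) _)
        · rw [mul_comm]; exact (Commute.all w w').geom_sum₂_mul l |>.symm
        · rintro rfl; simp
      choose k hkO hkm hk hk1 using hpow
      refine ⟨∑ i ∈ Finset.range (f.natDegree + 1), (if i = 1 then 0 else f.coeff i * k i), ?_, ?_⟩
      · refine S.sum_mem _ _ fun i _ => ?_
        split_ifs with h11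
        · exact S.zero_mem
        · exact S.mul_mem' (hfl i h11) (hkO i)
      · have hdeg : 1 ∈ Finset.range (f.natDegree + 1) := by
          by_cases hA : Nontrivial A
          · have : 1 ≤ f.natDegree := le_natDegree_of_ne_zero (by rw [hf1]; exact one_ne_zero)
            simp; omega
          · exfalso
            rw [not_nontrivial_iff_subsingleton] at hA
            exact hp ⟨1, 0, ⟨one_ne_zero, 0, S.zero_mem, Subsingleton.elim _ _⟩, fun l _ => by
              rw [Subsingleton.elim (_ * _ : A) 0]; exact S.O.zero_mem⟩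
        have : ∀ i ∈ Finset.range (f.natDegree + 1), f.coeff i * w ^ i - f.coeff i * w' ^ i =
            (w - w') * (if i = 1 then 1 else 0) + (w - w') * (if i = 1 then 0 else f.coeff i * k i) := by
          intro i _
          rw [← mul_sub, hk i]
          split_ifs with h11
          · rw [h11, hf1, hk1 1 rfl]; ring
          · ring
        rw [Finset.sum_congr rfl this, Finset.sum_add_distrib, ← Finset.mul_sum, ← Finset.mul_sum,
          Finset.sum_ite_eq' _ 1, if_pos hdeg]
        ring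
    obtain ⟨μ, hμ, h11⟩ := h10
    rw [hfw, hfw', sub_zero] at h11
    obtain ⟨ν', _, h12⟩ := S.unit hμ
    have : w - w' = 0 := by
      calc w - w' = (w - w') * ((1 + μ) * (1 + ν')) := by rw [h12, mul_one]
        _ = ((w - w') * (1 + μ)) * (1 + ν') := by ring
        _ = 0 := by rw [← h11, zero_mul]
    exact sub_eq_zero.mp this
  obtain ⟨w, hw, hfw⟩ := hensel f hf1 hfl
  have hback : ∀ y : A, (y - b) * S.t (-γ') = w → y = b + S.t γ' * w := by
    intro y hy
    calc y = b + (y - b) * (S.t γ' * S.t (-γ')) := by rw [S.t_neg]; ring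
      _ = b + S.t γ' * ((y - b) * S.t (-γ')) := by ring
      _ = _ := by rw [hy]
  have hw' : (b + S.t γ' * w - b) * S.t (-γ') = w := by
    calc _ = w * (S.t γ' * S.t (-γ')) := by ring
      _ = w := by rw [S.t_neg, mul_one]
  refine ⟨b + S.t γ' * w, ?_, ?_, ?_⟩
  · refine hcancel _ ?_
    rw [← hroot, hw', hfw]
  · unfold Sm; rw [hw']; exact hw
  · intro y hy hsm
    refine hback y (huniq _ _ hsm hw ?_ hfw)
    rw [hroot, hy, mul_zero]

theorem Sm.add {x y : A} {g : Γ} (hx : S.Sm x g) (hy : S.Sm y g) : S.Sm (x + y) g := by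
  unfold Sm; rw [add_mul]; exact S.add_mem hx hy

theorem Sm.of_le {x : A} {g g' : Γ} (hx : S.Sm x g) (h : S.t (g - g') ∈ S.O) : S.Sm x g' := by
  unfold Sm
  have : x * S.t (-g') = S.t (g - g') * (x * S.t (-g)) := by
    have : S.t (-g') = S.t (g - g') * S.t (-g) := by rw [← S.t_add]; congr 1; abel
    rw [this]; ring
  rw [this]; exact S.mul_mem h hx

/-- SPHERICAL COMPLETENESS of a maximal good ring. -/
theorem complete
    (sat : ∀ (a : ℕ → A) (g : ℕ → Γ), (∀ i, S.t (g (i + 1) - g i) ∈ S.m) →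
      (∀ i, S.Sm (a (i + 1) - a i) (g i)) → ∃ x, ∀ i, S.Sm (x - a i) (g i))
    (hensel : ∀ f : A[X], f.coeff 1 = 1 → (∀ l, l ≠ 1 → f.coeff l ∈ S.m) →
      ∃ w ∈ S.m, f.eval w = 0)
    (F : Subring A) (hF : S.Good F)
    (hmax : ∀ F' : Subring A, F ≤ F' → S.Good F' → F' ≤ F)
    (a : ℕ → A) (ha : ∀ i, a i ∈ F) (g : ℕ → Γ) (hg : ∀ i, S.t (g (i + 1) - g i) ∈ S.m)
    (hag : ∀ i, S.Sm (a (i + 1) - a i) (g i)) :
    ∃ x ∈ F, ∀ i, S.Sm (x - a i) (g i) := by
  classical
  have hle : ∀ i k, S.t (g (i + k) - g i) ∈ S.O := by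
    intro i k
    induction k with
    | zero => simp [S.t_zero]
    | succ k ih =>
      have : S.t (g (i + (k + 1)) - g i) = S.t (g (i + k + 1) - g (i + k)) * S.t (g (i + k) - g i) := by
        rw [← S.t_add]; congr 1; rw [← add_assoc]; abel
      rw [this]; exact S.O.mul_mem (S.m_sub (hg _)) ih
  have hlt : ∀ i k, S.t (g (i + k + 1) - g i) ∈ S.m := by
    intro i k
    have : S.t (g (i + k + 1) - g i) = S.t (g (i + k) - g i) * S.t (g (i + k + 1) - g (i + k)) := by
      rw [← S.t_add]; congr 1; abel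
    rw [this]; exact S.mul_mem (hle i k) (hg _)
  have hsm : ∀ i k, S.Sm (a (i + k) - a i) (g i) := by
    intro i k
    induction k with
    | zero => simp [Sm, S.zero_mem]
    | succ k ih =>
      have : a (i + (k + 1)) - a i = (a (i + k + 1) - a (i + k)) + (a (i + k) - a i) := by
        rw [← add_assoc]; ring
      rw [this]
      exact Sm.add S (Sm.of_le S (hag _) (hle i k)) ih
  let α : ℕ → F := fun i => ⟨a i, ha i⟩
  by_cases hall : ∀ p : F[X], p ≠ 0 → ∃ i, S.Settled F (α i) (g i) p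
  · obtain ⟨x, hx⟩ := sat a g hg hag
    refine ⟨x, S.mem_of_good F hmax x fun p => ?_, hx⟩
    by_cases hp : p = 0
    · left; rw [hp, map_zero]
    · right
      obtain ⟨i, hi⟩ := hall p hp
      exact Settled.lt S F (α i) (g i) p hi x (hx i)
  · push Not at hall
    obtain ⟨p0, hp0, hbad0⟩ := hall
    have hex : ∃ d, ∃ p : F[X], p ≠ 0 ∧ p.natDegree = d ∧ ∀ i, ¬ S.Settled F (α i) (g i) p :=
      ⟨_, p0, hp0, rfl, hbad0⟩
    obtain ⟨p, hp, hdeg, hbad⟩ := Nat.find_spec hex
    have hmin : ∀ q : F[X], q ≠ 0 → q.natDegree < Nat.find hex →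
        ∃ i, S.Settled F (α i) (g i) q := by
      intro q hq hlt'
      have := Nat.find_min hex hlt'
      push Not at this
      exact this q hq rfl
    have hAnt : Nontrivial A := by
      by_contra hA
      rw [not_nontrivial_iff_subsingleton] at hA
      exact hp (Subsingleton.elim _ _)
    -- make `p` monic
    have hlead : p.leadingCoeff ≠ 0 := leadingCoeff_ne_zero.mpr hp
    have hleadA : (p.leadingCoeff : A) ≠ 0 := by
      intro h; exact hlead (Subtype.ext h)
    obtain ⟨s, hs, hrs⟩ := S.exists_inv F hF hmax _ p.leadingCoeff.2 hleadA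
    have hrs' : p.leadingCoeff * (⟨s, hs⟩ : F) = 1 := Subtype.ext hrs
    set q : F[X] := C (⟨s, hs⟩ : F) * p with hq
    have hqm : q.Monic := by
      have h1 : q.coeff p.natDegree = 1 := by
        rw [hq, coeff_C_mul, mul_comm]; exact hrs'
      refine monic_of_natDegree_le_of_coeff_eq_one p.natDegree ?_ h1
      exact natDegree_C_mul_le _ _
    have hqdeg : q.natDegree = Nat.find hex := by
      rw [← hdeg]
      refine le_antisymm (natDegree_C_mul_le _ _) ?_
      refine le_natDegree_of_ne_zero ?_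
      rw [hq, coeff_C_mul, mul_comm]
      show p.leadingCoeff * (⟨s, hs⟩ : F) ≠ 0
      rw [hrs']; exact one_ne_zero
    have hpq : p = C p.leadingCoeff * q := by
      rw [hq, ← mul_assoc, ← C_mul, hrs', C_1, one_mul]
    have hbadq : ∀ i, ¬ S.Settled F (α i) (g i) q := by
      intro i hi
      refine hbad i ?_
      rw [hpq]
      exact Settled.const_mul S F _ _ q hi _ ((hF _ p.leadingCoeff.2).resolve_left hleadA)
    -- the degree is positive
    have hq0 : q.natDegree ≠ 0 := by
      intro h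
      have : q = 1 := by
        have := eq_C_of_natDegree_eq_zero h
        have h2 : q.coeff 0 = 1 := by
          have := hqm.coeff_natDegree
          rwa [h] at this
        rw [this, h2, C_1]
      refine hbadq 0 ?_
      rw [this]
      refine ⟨1, 0, ?_, fun l hl => ?_⟩
      · rw [taylor_one]; simpa using LT.one S
      · rw [taylor_one, coeff_C, if_neg hl]; simpa using S.O.zero_mem
    have hder : derivative q ≠ 0 := by
      intro h
      have h1 := congrArg (fun r => r.coeff (q.natDegree - 1)) h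
      simp only [coeff_derivative, coeff_zero] at h1
      rw [Nat.sub_add_cancel (Nat.pos_of_ne_zero hq0), hqm.coeff_natDegree, one_mul] at h1
      have h2 := congrArg (fun z : F => (z : A)) h1
      push_cast at h2
      have h3 : algebraMap ℂ A (((q.natDegree - 1 : ℕ) : ℂ) + 1) = 0 := by
        rw [map_add, map_one, map_natCast]; exact h2
      have h4 : (((q.natDegree - 1 : ℕ) : ℂ) + 1) = 0 :=
        (algebraMap ℂ A).injective (by rw [h3, map_zero])
      exact Nat.cast_add_one_ne_zero _ h4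
    obtain ⟨i1, hi1⟩ := hmin (derivative q) hder (by
      rw [← hqdeg]; exact natDegree_derivative_lt hq0)
    have hnew : ∀ k, ∃ x, aeval x q = 0 ∧ S.Sm (x - a (i1 + k + 1)) (g (i1 + k + 1)) ∧
        ∀ y, aeval y q = 0 → S.Sm (y - a (i1 + k + 1)) (g (i1 + k + 1)) → y = x := by
      intro k
      exact S.newton hensel F hF (α i1) (α (i1 + k + 1)) (g i1) (g (i1 + k + 1)) (hlt i1 k)
        (hsm i1 (k + 1)) q hi1 (hbadq _)
    choose x hx0 hxs hxu using hnew
    have hxeq : ∀ k, x k = x 0 := by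
      intro k
      refine hxu 0 (x k) (hx0 k) ?_
      have h1 : x k - a (i1 + 0 + 1) = (x k - a (i1 + k + 1)) +
          (a (i1 + 0 + 1 + k) - a (i1 + 0 + 1)) := by
        have : i1 + 0 + 1 + k = i1 + k + 1 := by ring
        rw [this]; ring
      rw [h1]
      refine Sm.add S (Sm.of_le S (hxs k) ?_) (hsm _ k)
      have := hle (i1 + 0 + 1) k
      have h2 : i1 + 0 + 1 + k = i1 + k + 1 := by ring
      rwa [h2] at this
    have hall' : ∀ i, S.Sm (x 0 - a i) (g i) := by
      intro i
      -- compare with the index `i1 + i + 1 ≥ i`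
      have h1 : x 0 - a i = (x i - a (i1 + i + 1)) + (a (i + (i1 + 1)) - a i) := by
        have : i + (i1 + 1) = i1 + i + 1 := by ring
        rw [this, hxeq i]; ring
      rw [h1]
      refine Sm.add S (Sm.of_le S (hxs i) ?_) (hsm _ _)
      have := hle i (i1 + 1)
      have h2 : i + (i1 + 1) = i1 + i + 1 := by ring
      rwa [h2] at this
    refine ⟨x 0, S.mem_of_good F hmax (x 0) fun r => ?_, hall'⟩
    have hr : aeval (x 0) r = aeval (x 0) (r %ₘ q) := by
      conv_lhs => rw [← modByMonic_add_div r q]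
      rw [map_add, map_mul, hx0 0, zero_mul, add_zero]
    by_cases hr0 : r %ₘ q = 0
    · left; rw [hr, hr0, map_zero]
    · right
      have hFnt : Nontrivial F := ⟨⟨0, 1, fun h => one_ne_zero (congrArg Subtype.val h).symm⟩⟩
      obtain ⟨i, hi⟩ := hmin _ hr0 (by
        rw [← hqdeg]
        exact natDegree_modByMonic_lt r hqm (fun h => hq0 (by rw [h]; simp)))
      rw [hr]
      exact Settled.lt S F (α i) (g i) _ hi (x 0) (hall' i)

/-- Zorn: every good subring is contained in a maximal good subring. -/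
theorem exists_max (F0 : Subring A) (h0 : S.Good F0) :
    ∃ F : Subring A, F0 ≤ F ∧ S.Good F ∧ ∀ F' : Subring A, F ≤ F' → S.Good F' → F' ≤ F := by
  obtain ⟨F, hle, hF⟩ := zorn_le_nonempty₀ {F : Subring A | S.Good F} (by
    intro c hc hchain y hy
    refine ⟨sSup c, ?_, fun z hz => le_sSup hz⟩
    intro a ha
    rw [Subring.mem_sSup_of_directedOn ⟨y, hy⟩ hchain.directedOn] at ha
    obtain ⟨F, hFc, haF⟩ := ha
    exact hc hFc a haF) F0 h0
  exact ⟨F, hle, hF.1, fun F' h1 h2 => hF.2 h2 h1⟩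

/-- sum of two elements with different leading exponents -/
theorem LT.add_of_ne {a b : A} {c d : ℂ} {g h : Γ} (ha : S.LT a c g) (hb : S.LT b d h)
    (hgh : g ≠ h) : S.LT (a + b) c g ∨ S.LT (a + b) d h := by
  have key : ∀ {a b : A} {c d : ℂ} {g h : Γ}, S.LT a c g → S.LT b d h → S.t (h - g) ∈ S.m →
      S.LT (a + b) c g := by
    intro a b c d g h ha hb hm
    obtain ⟨_, ν, hν, hb⟩ := hb
    have : b = S.t g * (algebraMap ℂ A d * (1 + ν) * S.t (h - g)) := by
      have : S.t h = S.t g * S.t (h - g) := by rw [← S.t_add]; congr 1; abel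
      rw [hb, this]; ring
    rw [this]
    exact LT.add S ha (S.mul_mem (S.O.mul_mem (S.alg_mem _)
      (S.O.add_mem S.O.one_mem (S.m_sub hν))) hm)
  rcases S.total (h - g) (sub_ne_zero.mpr hgh.symm) with h1 | h1
  · left; exact key ha hb h1
  · right
    rw [add_comm]
    refine key hb ha ?_
    rwa [neg_sub] at h1

/-- a nonempty finite sum of elements with distinct leading exponents has a leading term -/
theorem LT.sum {ι : Type*} (s : Finset ι) (hs : s.Nonempty) (a : ι → A) (c : ι → ℂ) (g : ι → Γ)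
    (h : ∀ i ∈ s, S.LT (a i) (c i) (g i)) (hg : Set.InjOn g s) :
    ∃ j ∈ s, S.LT (∑ i ∈ s, a i) (c j) (g j) := by
  classical
  induction hs using Finset.Nonempty.cons_induction with
  | singleton i => exact ⟨i, by simp, by simpa using h i (by simp)⟩
  | cons i s hi hs ih =>
    obtain ⟨j, hj, hlt⟩ := ih (fun k hk => h k (by simp [hk]))
      (fun x hx y hy hxy => hg (by simp at hx ⊢; exact Or.inr hx) (by simp at hy ⊢; exact Or.inr hy)
        hxy)
    rw [Finset.sum_cons]
    have hne : g i ≠ g j := by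
      intro he
      have := hg (by simp) (by simp [hj]) he
      exact hi (this ▸ hj)
    rcases LT.add_of_ne S (h i (by simp)) hlt hne with h1 | h1
    · exact ⟨i, by simp, h1⟩
    · exact ⟨j, by simp [hj], h1⟩

end Scale

section Extend

variable {A A' : Type*} [CommRing A] [Algebra ℂ A] [CommRing A'] [Algebra ℂ A']
  {Γ Q : Type*} [AddCommGroup Γ] [AddCommGroup Q]

/-- Adjoining the powers `t' (0, q)` of a new scale to the image of a good ring. -/
theorem exists_extend (S : Scale A Γ) (S' : Scale A' (Γ × Q)) (ρ : A →+* A')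
    (hρc : ∀ c : ℂ, ρ (algebraMap ℂ A c) = algebraMap ℂ A' c) (hρm : ∀ a ∈ S.m, ρ a ∈ S'.m)
    (hρt : ∀ g, ρ (S.t g) = S'.t (g, 0)) (F : Subring A) (hF : S.Good F) :
    ∃ F' : Subring A', S'.Good F' ∧ (∀ a ∈ F, ρ a ∈ F') ∧ ∀ q, S'.t (0, q) ∈ F' := by
  classical
  -- finite sums of `ρ (a q) * t' (0, q)`
  let F' : Subring A' :=
    { carrier := {y | ∃ a : Q →₀ A, (∀ q, a q ∈ F) ∧
        y = a.sum fun q x => ρ x * S'.t (0, q)}
      mul_mem' := by
        rintro _ _ ⟨a, ha, rfl⟩ ⟨b, hb, rfl⟩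
        refine ⟨∑ p ∈ a.support, ∑ q ∈ b.support, Finsupp.single (p + q) (a p * b q), ?_, ?_⟩
        · intro q
          rw [Finsupp.finset_sum_apply]
          refine F.sum_mem fun i _ => ?_
          rw [Finsupp.finset_sum_apply]
          refine F.sum_mem fun j _ => ?_
          rw [Finsupp.single_apply]
          split_ifs
          · exact F.mul_mem (ha i) (hb j)
          · exact F.zero_mem
        · rw [← Finsupp.sum_finset_sum_index (by simp) (by intro q x y; rw [map_add, add_mul])]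
          rw [Finsupp.sum, Finsupp.sum, Finset.sum_mul_sum]
          refine Finset.sum_congr rfl fun p _ => ?_
          rw [← Finsupp.sum_finset_sum_index (by simp) (by intro q x y; rw [map_add, add_mul])]
          refine Finset.sum_congr rfl fun q _ => ?_
          rw [Finsupp.sum_single_index (by simp), map_mul]
          have : S'.t (0, p + q) = S'.t (0, p) * S'.t (0, q) := by
            rw [← S'.t_add]; simp
          rw [this]; ring
      one_mem' := ⟨Finsupp.single 0 1, fun q => by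
          rw [Finsupp.single_apply]; split_ifs
          · exact F.one_mem
          · exact F.zero_mem, by
          rw [Finsupp.sum_single_index (by simp), map_one, one_mul]
          exact S'.t_zero.symm⟩
      add_mem' := by
        rintro _ _ ⟨a, ha, rfl⟩ ⟨b, hb, rfl⟩
        refine ⟨a + b, fun q => F.add_mem (ha q) (hb q), ?_⟩
        rw [Finsupp.sum_add_index' (by simp) (by intro q x y; rw [map_add, add_mul])]
      zero_mem' := ⟨0, fun q => F.zero_mem, by simp⟩
      neg_mem' := by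
        rintro _ ⟨a, ha, rfl⟩
        refine ⟨-a, fun q => F.neg_mem (ha q), ?_⟩
        rw [Finsupp.sum_neg_index (by simp), Finsupp.sum, Finsupp.sum, ← Finset.sum_neg_distrib]
        exact Finset.sum_congr rfl fun q _ => by rw [map_neg]; ring }
  refine ⟨F', ?_, ?_, ?_⟩
  · rintro _ ⟨a, ha, rfl⟩
    by_cases h0 : a.support = ∅
    · left; rw [Finsupp.sum, h0, Finset.sum_empty]
    · right
      have hlt : ∀ q ∈ a.support, ∃ c g, S'.LT (ρ (a q) * S'.t (0, q)) c (g, q) := by
        intro q hq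
        obtain ⟨c, g, hc, μ, hμ, h⟩ := (hF _ (ha q)).resolve_left (Finsupp.mem_support_iff.mp hq)
        refine ⟨c, g, hc, ρ μ, hρm _ hμ, ?_⟩
        have : S'.t (g, q) = S'.t (g, 0) * S'.t (0, q) := by rw [← S'.t_add]; simp
        rw [h, map_mul, map_mul, map_add, map_one, hρc, hρt, this]
        ring
      choose! c g hlt using hlt
      obtain ⟨j, _, hj⟩ := Scale.LT.sum S' a.support (Finset.nonempty_iff_ne_empty.mpr h0)
        (fun q => ρ (a q) * S'.t (0, q)) c (fun q => (g q, q)) hlt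
        (fun x _ y _ hxy => (Prod.ext_iff.mp hxy).2)
      exact ⟨_, _, hj⟩
  · intro x hx
    refine ⟨Finsupp.single 0 x, fun q => ?_, ?_⟩
    · rw [Finsupp.single_apply]; split_ifs
      · exact hx
      · exact F.zero_mem
    · rw [Finsupp.sum_single_index (by simp)]
      have : S'.t ((0 : Γ), (0 : Q)) = 1 := S'.t_zero
      rw [this, mul_one]
  · intro q
    refine ⟨Finsupp.single q 1, fun q' => ?_, ?_⟩
    · rw [Finsupp.single_apply]; split_ifs
      · exact F.one_mem
      · exact F.zero_mem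
    · rw [Finsupp.sum_single_index (by simp), map_one, one_mul]

end Extend

end Pool.Agent.H65.FT
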